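import Pool.Agent.helper60.Zr.M31

set_option autoImplicit false

/-!
# MP_8ee7fe_ag (Zariski's multiplicity question): homeomorphisms which are almost real-linear at arbitrarily small scales

Let `φ` be a germ of homeomorphism of `(E, 0)` which maps the zeros of the reduced germ `f` (multiplicity `k`) to the zeros of the reduced
germ `g` (multiplicity `m`). If at arbitrarily small scales `r` the homeomorphism is, up to an error `δ * σ * r`, a real-linear
automorphism whose distortion is at most `Λ`, where `8 * Λ * δ * max k m < 1`, then `k = m`.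
-/

noncomputable section

namespace Pool.Agent.Results.MP_8ee7fe_ag.AlmostRealLinear

open Filter Topology Set

variable {E : Type*} [NormedAddCommGroup E] [NormedSpace ℂ E]

/-- `f` is a reduced holomorphic germ at `0` with `f 0 = 0`: every holomorphic germ which vanishes on the zeros of `f` is a multiple of `f`
(the condition of the frozen statement `S00303`) -/
def ReducedGerm (f : E → ℂ) : Prop :=
  AnalyticAt ℂ f 0 ∧ f 0 = 0 ∧ ∀ g : E → ℂ, AnalyticAt ℂ g 0 → (∀ᶠ z in 𝓝 (0 : E), f z = 0 → g z = 0) →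
    ∃ h : E → ℂ, AnalyticAt ℂ h 0 ∧ ∀ᶠ z in 𝓝 (0 : E), g z = h z * f z

/-- the multiplicity of `f` at `0` is `k`: the derivative of order `k` is the first derivative of `f` at `0` which does not vanish -/
def HasMult (f : E → ℂ) (k : ℕ) : Prop :=
  (∀ j < k, iteratedFDeriv ℂ j f 0 = 0) ∧ iteratedFDeriv ℂ k f 0 ≠ 0

/-- `φ : V → W` is a homeomorphism between neighbourhoods of `0`, with inverse `ψ`, `φ 0 = 0`, and `φ` maps the zeros of `f` in `V` to the zeros
of `g` in `W` (the germ of homeomorphism of the question) -/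
structure TopEquiv (f g : E → ℂ) (φ ψ : E → E) (V W : Set E) : Prop where
  nhdsV : V ∈ 𝓝 (0 : E)
  nhdsW : W ∈ 𝓝 (0 : E)
  mapsTo : MapsTo φ V W
  mapsInv : MapsTo ψ W V
  leftInv : LeftInvOn ψ φ V
  rightInv : RightInvOn ψ φ W
  cont : ContinuousOn φ V
  contInv : ContinuousOn ψ W
  zero : φ 0 = 0
  zeros : ∀ z ∈ V, (f z = 0 ↔ g (φ z) = 0)

omit [NormedSpace ℂ E] in
theorem TopEquiv.equ {f g : E → ℂ} {φ ψ : E → E} {V W : Set E} (h : TopEquiv f g φ ψ V W) : Zr.Equ f g φ ψ V W :=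
  ⟨h.nhdsV, h.nhdsW, h.mapsTo, h.mapsInv, h.leftInv, h.rightInv, h.cont, h.contInv, h.zero, h.zeros⟩

/-- `φ` is almost real-linear at arbitrarily small scales `r`, with distortion `Λ` and error `δ`; the scaling factors `σ` and the real-linear
automorphisms `A` may depend on `r` in any way -/
def AlmostLinear (φ : E → E) (Λ δ : ℝ) : Prop :=
  ∀ ε : ℝ, 0 < ε → ∃ r σ : ℝ, 0 < r ∧ r < ε ∧ 0 < σ ∧ ∃ A : E ≃ₗ[ℝ] E,
    (∀ x, σ * ‖x‖ ≤ ‖A x‖ ∧ ‖A x‖ ≤ Λ * σ * ‖x‖) ∧ ∀ x, ‖x‖ ≤ (Λ + 2) * r → ‖φ x - A x‖ ≤ δ * σ * r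

theorem result {E : Type*} [NormedAddCommGroup E] [NormedSpace ℂ E] [FiniteDimensional ℂ E] {f g : E → ℂ}
    (hf : ReducedGerm f) (hg : ReducedGerm g) {φ ψ : E → E} {V W : Set E} (h : TopEquiv f g φ ψ V W) {k m : ℕ}
    (hk : HasMult f k) (hm : HasMult g m) {Λ δ : ℝ} (hΛ : 1 ≤ Λ) (hδ : 0 ≤ δ) (h1 : 8 * Λ * δ * k < 1)
    (h2 : 8 * Λ * δ * m < 1) (hA : AlmostLinear φ Λ δ) : k = m :=
  Zr.result_alm hf hg h.equ hk hm hΛ hδ h1 h2 hA

end Pool.Agent.Results.MP_8ee7fe_ag.AlmostRealLinear
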