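import Pool.Agent.helper60.ZrD.B8

set_option autoImplicit false

/-!
# MP_8ee7fe_ag (Zariski's multiplicity question): families near discriminants of finite corank one map germs

Let `a i` (`i < N`) be holomorphic germs at `0` with `a i 0 = 0` and `d (a 0) ≠ 0` at `0`: the hypersurface
`{(x, t) | t ^ N + ∑ a i x * t ^ i = 0}` is smooth and its projection to `x` is a finite map germ of degree `N` of corank at most one. Its
discriminant, the set of `x` with fewer than `N` roots, is in general a non-isolated singularity (for instance the generalised swallowtails). Suppose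
that there are exactly `N - 1` roots at a dense set of points of the discriminant. If one member `F s` of the family of the frozen statement `S00303`
has this discriminant as its zero set, then all members `F t` with `t` near `s` have the multiplicity `N - 1`.
-/

noncomputable section

namespace Pool.Agent.Results.MP_8ee7fe_ag.CorankOneDiscriminants

open Filter Topology Set

variable {E : Type*} [NormedAddCommGroup E] [NormedSpace ℂ E]

/-- the set of roots of the monic polynomial of degree `N` with the coefficients `a i x` at the point `x` -/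
def Roots {N : ℕ} (a : Fin N → E → ℂ) (x : E) : Set ℂ := {t | t ^ N + ∑ i : Fin N, a i x * t ^ (i : ℕ) = 0}

/-- near `0` the zeros of `f` are the discriminant of the polynomial `t ^ N + ∑ a i x * t ^ i`, whose coefficients are holomorphic and vanish at `0`, with
`d (a 0) ≠ 0` at `0`, and which has exactly `N - 1` roots at a dense set of points of its discriminant -/
structure IsFoldDiscriminant {N : ℕ} (a : Fin N → E → ℂ) (f : E → ℂ) : Prop where
  analytic : ∀ i, AnalyticAt ℂ (a i) 0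
  vanish : ∀ i, a i 0 = 0
  smooth : ∀ i : Fin N, (i : ℕ) = 0 → fderiv ℂ (a i) 0 ≠ 0
  locus : ∀ᶠ x in 𝓝 (0 : E), (f x = 0 ↔ (Roots a x).ncard < N)
  fold : ∀ᶠ x in 𝓝 (0 : E), f x = 0 → x ∈ closure {q | f q = 0 ∧ (Roots a q).ncard + 1 = N}

theorem result {E : Type*} [NormedAddCommGroup E] [NormedSpace ℂ E] [FiniteDimensional ℂ E] (F : ℝ → E → ℂ) (U : Set E)
    (hU : IsOpen U) (h0 : (0 : E) ∈ U)
    (hF : ContinuousOn (fun p : ℝ × E => F p.1 p.2) (Icc (0:ℝ) 1 ×ˢ U))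
    (ha : ∀ t ∈ Icc (0:ℝ) 1, AnalyticOnNhd ℂ (F t) U ∧ F t 0 = 0)
    (hr : ∀ t ∈ Icc (0:ℝ) 1, ∀ g : E → ℂ, AnalyticAt ℂ g 0 → (∀ᶠ z in 𝓝 (0 : E), F t z = 0 → g z = 0) →
      ∃ h : E → ℂ, AnalyticAt ℂ h 0 ∧ ∀ᶠ z in 𝓝 (0 : E), g z = h z * F t z)
    (htop : ∀ t ∈ Icc (0:ℝ) 1, ∃ V ∈ 𝓝 (0 : E), ∃ W ∈ 𝓝 (0 : E), ∃ φ ψ : E → E,
      MapsTo φ V W ∧ MapsTo ψ W V ∧ LeftInvOn ψ φ V ∧ RightInvOn ψ φ W ∧ ContinuousOn φ V ∧ ContinuousOn ψ W ∧
      φ 0 = 0 ∧ ∀ z ∈ V, (F 0 z = 0 ↔ F t (φ z) = 0))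
    (s : ℝ) (hs : s ∈ Icc (0:ℝ) 1) (N : ℕ) (hN : 2 ≤ N) (a : Fin N → E → ℂ) (hD : IsFoldDiscriminant a (F s)) :
    ∃ η : ℝ, 0 < η ∧ ∀ t ∈ Icc (0:ℝ) 1, |t - s| < η →
      (∀ j < N - 1, iteratedFDeriv ℂ j (F t) 0 = 0) ∧ iteratedFDeriv ℂ (N - 1) (F t) 0 ≠ 0 :=
  ZrD.disc_near hN hU h0 hF (fun t ht => (ha t ht).1) (fun t ht => ⟨(ha t ht).1 0 h0, (ha t ht).2, hr t ht⟩)
    (fun t ht => by
      obtain ⟨V, hV, W, hW, φ, ψ, a1, a2, a3, a4, a5, a6, a7, a8⟩ := htop t ht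
      exact ⟨φ, ψ, V, W, ⟨hV, hW, a1, a2, a3, a4, a5, a6, a7, a8⟩⟩) hs
    ⟨hD.analytic, hD.vanish, hD.smooth, hD.locus, hD.fold⟩

end Pool.Agent.Results.MP_8ee7fe_ag.CorankOneDiscriminants
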