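import Pool.Agent.helper60.ZrL.FA

set_option autoImplicit false

/-!
# MP_8ee7fe_ag (Zariski's multiplicity question): local systems off the hypersurface bound the multiplicity from below

Let `F t` be the family of the frozen statement `S00303`. Suppose that near `0` and off the zeros of `F 0` there is a local system of vector
spaces of dimension `d` without nonzero germs of flat sections at `0`, such that near a dense set of points of the hypersurface its flat sections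
form a space of codimension at most `e` (for instance `e = 1`: the meridians act by pseudo-reflections). If `e * (k - 1) < d`, where `k` is the
multiplicity of `F s`, then `F t` has multiplicity `k` for all `t` near `s`.
-/

noncomputable section

namespace Pool.Agent.Results.MP_8ee7fe_ag.LocalSystems

open Filter Topology Set

variable {T K M : Type*} [TopologicalSpace T] [Field K] [AddCommGroup M] [Module K M]

/-- `P` is (the parallel transport between nearby points of) a local system on `X` with fibre `M` at every point -/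
def IsLocalSystem (X : Set T) (P : T → T → (M ≃ₗ[K] M)) : Prop :=
  ∀ x ∈ X, ∀ᶠ y in 𝓝[X] x, ∀ᶠ w in 𝓝[X] y, ∀ u : M, P y w (P x y u) = P x w u

/-- `s` is a flat section over `A` -/
def IsFlat (P : T → T → (M ≃ₗ[K] M)) (A : Set T) (s : T → M) : Prop :=
  ∀ x ∈ A, ∀ᶠ y in 𝓝[A] x, s y = P x y (s x)

/-- the subspace of the values at `x` of the flat sections over `A` -/
def FlatValues (P : T → T → (M ≃ₗ[K] M)) (A : Set T) (x : T) : Submodule K M where
  carrier := {u | ∃ s : T → M, IsFlat P A s ∧ s x = u}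
  add_mem' := (ZrL.Val P A x).add_mem'
  zero_mem' := (ZrL.Val P A x).zero_mem'
  smul_mem' := (ZrL.Val P A x).smul_mem'

/-- the local system has defect at most `e` at the point `q` of `Z`: the flat sections over a punctured neighbourhood `O \ Z` of `q` form a
space of codimension at most `e` (their values at every point form a subspace of codimension at most `e`) -/
def DefectAt (P : T → T → (M ≃ₗ[K] M)) (Z : Set T) (e : ℕ) (q : T) : Prop :=
  ∃ O ∈ 𝓝 q, ∀ x ∈ O \ Z, Module.finrank K M ≤ Module.finrank K (FlatValues P (O \ Z) x) + e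

/-- near `0` and off `Z` there is a local system with fibre `M` (a vector space over `K`) which has defect at most `e` at a dense set of
points of `Z` near `0` and no nonzero germ of flat sections at `0` -/
def HasSystem (K M : Type*) [Field K] [AddCommGroup M] [Module K M] {E : Type*} [NormedAddCommGroup E] (Z : Set E)
    (e : ℕ) : Prop :=
  ∃ (N : Set E) (P : E → E → (M ≃ₗ[K] M)), N ∈ 𝓝 (0 : E) ∧ IsLocalSystem (N \ Z) P ∧
    (∀ᶠ x in 𝓝 (0 : E), x ∈ Z → x ∈ closure {q | q ∈ Z ∧ DefectAt P Z e q}) ∧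
    ∀ O ∈ 𝓝 (0 : E), ∀ s : E → M, IsFlat P (O \ Z) s → ∀ᶠ x in 𝓝 (0 : E), x ∉ Z → s x = 0

theorem result {K M E : Type*} [Field K] [AddCommGroup M] [Module K M] [FiniteDimensional K M] [NormedAddCommGroup E]
    [NormedSpace ℂ E] [FiniteDimensional ℂ E] (F : ℝ → E → ℂ) (U : Set E) (hU : IsOpen U) (h0 : (0 : E) ∈ U)
    (hF : ContinuousOn (fun p : ℝ × E => F p.1 p.2) (Icc (0:ℝ) 1 ×ˢ U))
    (ha : ∀ t ∈ Icc (0:ℝ) 1, AnalyticOnNhd ℂ (F t) U ∧ F t 0 = 0)
    (hr : ∀ t ∈ Icc (0:ℝ) 1, ∀ g : E → ℂ, AnalyticAt ℂ g 0 → (∀ᶠ z in 𝓝 (0 : E), F t z = 0 → g z = 0) →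
      ∃ h : E → ℂ, AnalyticAt ℂ h 0 ∧ ∀ᶠ z in 𝓝 (0 : E), g z = h z * F t z)
    (htop : ∀ t ∈ Icc (0:ℝ) 1, ∃ V ∈ 𝓝 (0 : E), ∃ W ∈ 𝓝 (0 : E), ∃ φ ψ : E → E,
      MapsTo φ V W ∧ MapsTo ψ W V ∧ LeftInvOn ψ φ V ∧ RightInvOn ψ φ W ∧ ContinuousOn φ V ∧ ContinuousOn ψ W ∧
      φ 0 = 0 ∧ ∀ z ∈ V, (F 0 z = 0 ↔ F t (φ z) = 0))
    (s : ℝ) (hs : s ∈ Icc (0:ℝ) 1) (k e : ℕ) (hk : (∀ j < k, iteratedFDeriv ℂ j (F s) 0 = 0) ∧
      iteratedFDeriv ℂ k (F s) 0 ≠ 0) (hsys : HasSystem K M {x | F 0 x = 0} e)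
    (hbig : e * (k - 1) < Module.finrank K M) :
    ∃ η : ℝ, 0 < η ∧ ∀ t ∈ Icc (0:ℝ) 1, |t - s| < η →
      (∀ j < k, iteratedFDeriv ℂ j (F t) 0 = 0) ∧ iteratedFDeriv ℂ k (F t) 0 ≠ 0 :=
  ZrL.result_near hU h0 hF (fun t ht => (ha t ht).1) (fun t ht => ⟨(ha t ht).1 0 h0, (ha t ht).2, hr t ht⟩)
    (fun t ht => by
      obtain ⟨V, hV, W, hW, φ, ψ, a1, a2, a3, a4, a5, a6, a7, a8⟩ := htop t ht
      exact ⟨φ, ψ, V, W, ⟨hV, hW, a1, a2, a3, a4, a5, a6, a7, a8⟩⟩) hs hk hsys hbig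

end Pool.Agent.Results.MP_8ee7fe_ag.LocalSystems
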