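import Pool.Agent.helper60.ZrG.G4

set_option autoImplicit false

/-!
# MP_8ee7fe_ag (Zariski's multiplicity question): families near discriminants of finite linear groups

Let `G` be a finite group of linear automorphisms of `V` without nonzero fixed vectors (for instance an essential complex reflection group), `q : V → E` its
orbit map, and suppose that the zeros of one member `F s` of the family of the frozen statement `S00303` are the discriminant: the images of the vectors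
with a nontrivial stabilizer, a dense set of which have stabilizers fixing a subspace of codimension at most `e` (`e = 1` for reflection groups). If
the multiplicity `k` of `F s` satisfies `e * (k - 1) < dim V` (for reflection groups: if it is at most the rank, which holds exactly for the well generated
groups if `G` is irreducible), then all members `F t` with `t` near `s` have the multiplicity `k`.
-/

noncomputable section

namespace Pool.Agent.Results.MP_8ee7fe_ag.OrbitDiscriminants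

open Filter Topology Set

variable {V : Type*} [NormedAddCommGroup V] [NormedSpace ℂ V] {E : Type*} [NormedAddCommGroup E]

/-- the subspace of the vectors fixed by the stabilizer of `v` -/
def FixStab (G : Subgroup (V ≃ₗ[ℂ] V)) (v : V) : Submodule ℂ V where
  carrier := {w | ∀ g ∈ G, g v = v → g w = w}
  add_mem' := (ZrG.fixSt G v).add_mem'
  zero_mem' := (ZrG.fixSt G v).zero_mem'
  smul_mem' := (ZrG.fixSt G v).smul_mem'

/-- `q : V → E` is the orbit map of the finite group `G` without nonzero fixed vectors; near `0` the zeros of `f` are the images of the vectors with a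
nontrivial stabilizer, and for a dense set of them the stabilizer of a preimage fixes a subspace of codimension at most `e` -/
structure IsOrbitDiscriminant (G : Subgroup (V ≃ₗ[ℂ] V)) (q : V → E) (f : E → ℂ) (e : ℕ) : Prop where
  finite : Finite G
  continuous : Continuous q
  isOpenMap : IsOpenMap q
  zero : q 0 = 0
  fibres : ∀ v w, q v = q w ↔ ∃ g ∈ G, g v = w
  essential : ∀ v, (∀ g ∈ G, g v = v) → v = 0
  locus : ∀ᶠ x in 𝓝 (0 : E), (f x = 0 ↔ ∃ v, q v = x ∧ ∃ g ∈ G, g ≠ 1 ∧ g v = v)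
  dense : ∀ᶠ x in 𝓝 (0 : E), f x = 0 →
    x ∈ closure {y | f y = 0 ∧ ∃ v, q v = y ∧ Module.finrank ℂ V ≤ Module.finrank ℂ (FixStab G v) + e}

theorem result {V E : Type*} [NormedAddCommGroup V] [NormedSpace ℂ V] [FiniteDimensional ℂ V] [NormedAddCommGroup E]
    [NormedSpace ℂ E] [FiniteDimensional ℂ E] (F : ℝ → E → ℂ) (U : Set E) (hU : IsOpen U) (h0 : (0 : E) ∈ U)
    (hF : ContinuousOn (fun p : ℝ × E => F p.1 p.2) (Icc (0:ℝ) 1 ×ˢ U))
    (ha : ∀ t ∈ Icc (0:ℝ) 1, AnalyticOnNhd ℂ (F t) U ∧ F t 0 = 0)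
    (hr : ∀ t ∈ Icc (0:ℝ) 1, ∀ g : E → ℂ, AnalyticAt ℂ g 0 → (∀ᶠ z in 𝓝 (0 : E), F t z = 0 → g z = 0) →
      ∃ h : E → ℂ, AnalyticAt ℂ h 0 ∧ ∀ᶠ z in 𝓝 (0 : E), g z = h z * F t z)
    (htop : ∀ t ∈ Icc (0:ℝ) 1, ∃ V ∈ 𝓝 (0 : E), ∃ W ∈ 𝓝 (0 : E), ∃ φ ψ : E → E,
      MapsTo φ V W ∧ MapsTo ψ W V ∧ LeftInvOn ψ φ V ∧ RightInvOn ψ φ W ∧ ContinuousOn φ V ∧ ContinuousOn ψ W ∧
      φ 0 = 0 ∧ ∀ z ∈ V, (F 0 z = 0 ↔ F t (φ z) = 0))
    (s : ℝ) (hs : s ∈ Icc (0:ℝ) 1) (k e : ℕ) (hk : (∀ j < k, iteratedFDeriv ℂ j (F s) 0 = 0) ∧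
      iteratedFDeriv ℂ k (F s) 0 ≠ 0) (G : Subgroup (V ≃ₗ[ℂ] V)) (q : V → E) (hG : IsOrbitDiscriminant G q (F s) e)
    (hbig : e * (k - 1) < Module.finrank ℂ V) :
    ∃ η : ℝ, 0 < η ∧ ∀ t ∈ Icc (0:ℝ) 1, |t - s| < η →
      (∀ j < k, iteratedFDeriv ℂ j (F t) 0 = 0) ∧ iteratedFDeriv ℂ k (F t) 0 ≠ 0 :=
  ZrG.orbit_near hU h0 hF (fun t ht => (ha t ht).1) (fun t ht => ⟨(ha t ht).1 0 h0, (ha t ht).2, hr t ht⟩)
    (fun t ht => by
      obtain ⟨V, hV, W, hW, φ, ψ, a1, a2, a3, a4, a5, a6, a7, a8⟩ := htop t ht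
      exact ⟨φ, ψ, V, W, ⟨hV, hW, a1, a2, a3, a4, a5, a6, a7, a8⟩⟩) hs
    ⟨hG.finite, hG.continuous, hG.isOpenMap, hG.zero, hG.fibres, hG.essential, hG.locus, hG.dense⟩ hk hbig

end Pool.Agent.Results.MP_8ee7fe_ag.OrbitDiscriminants
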